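import Pool.Agent.helper75.PSA.Spec

/-! Project psa (MP_2b41e9_nt), row REC: the conjugates of a Salem number. -/

set_option autoImplicit false

open Polynomial Finset

noncomputable section

namespace Pool.Agent.PSA

theorem REC_even (n : ℕ) : ∀ F : ℝ[X], F.Monic → F.natDegree = n → (∀ z : ℂ, aeval z F = 0 → z.im ≠ 0) → Even n := by
  induction n using Nat.strong_induction_on with
  | _ n ih =>
    intro F hF hn hr
    rcases Nat.eq_zero_or_pos n with h0 | h0
    · rw [h0]
      exact Even.zero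
    · have hdeg : F.degree ≠ 0 := by
        intro h
        have h7 : F.natDegree = 0 := natDegree_eq_of_degree_eq_some h
        omega
      obtain ⟨z, hz⟩ := IsAlgClosed.exists_aeval_eq_zero ℂ F hdeg
      obtain ⟨G, hG⟩ := Polynomial.quadratic_dvd_of_aeval_eq_zero_im_ne_zero F hz (hr z hz)
      have hq : (X ^ 2 - C (2 * z.re) * X + C (‖z‖ ^ 2) : ℝ[X]).natDegree = 2 := by
        compute_degree!
      have hqm : (X ^ 2 - C (2 * z.re) * X + C (‖z‖ ^ 2) : ℝ[X]).Monic := by
        monicity!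
      rw [hG] at hF
      have hGm : G.Monic := hqm.of_mul_monic_left hF
      have hd : n = 2 + G.natDegree := by
        rw [← hn, hG, hqm.natDegree_mul hGm, hq]
      have := ih G.natDegree (by omega) G hGm rfl (fun w hw => hr w (by rw [hG, map_mul, hw, mul_zero]))
      rw [hd]
      exact even_two.add this

theorem REC (hFAC : FAC_stmt) : REC_stmt := by
  intro β hβ
  obtain ⟨hint, hβ1, hle, z₀, hz₀, hz₀1⟩ := hβ
  have hβ0 : 0 < β := by linarith
  have hintQ : IsIntegral ℚ β := hint.tower_top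
  have hpP : minpoly ℚ β = (minpoly ℤ β).map (algebraMap ℤ ℚ) := minpoly.isIntegrallyClosed_eq_field_fractions' ℚ hint
  have hirr : Irreducible (minpoly ℚ β) := minpoly.irreducible hintQ
  have hmon : (minpoly ℚ β).Monic := minpoly.monic hintQ
  have hiff : ∀ z : ℂ, aeval z (minpoly ℤ β) = 0 ↔ aeval z (minpoly ℚ β) = 0 := by
    intro z
    rw [hpP, aeval_map_algebraMap]
  have hmin : ∀ z : ℂ, aeval z (minpoly ℚ β) = 0 → minpoly ℚ β = minpoly ℚ z := fun z hz =>
    minpoly.eq_of_irreducible_of_monic hirr hz hmon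
  -- a rational root is impossible unless it is `β`
  have hrat : ∀ q : ℚ, aeval ((q : ℂ)) (minpoly ℚ β) = 0 → β = q := by
    intro q hq
    have h1 := hmin _ hq
    have h2 : minpoly ℚ (q : ℂ) = X - C q := by
      have := minpoly.eq_X_sub_C ℂ q
      simpa using this
    have h3 : aeval β (minpoly ℚ β) = 0 := minpoly.aeval ℚ β
    rw [h1, h2] at h3
    simp at h3
    linarith
  have hne0 : ∀ z : ℂ, aeval z (minpoly ℚ β) = 0 → z ≠ 0 := by
    rintro z hz rfl
    have := hrat 0 (by simpa using hz)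
    simp at this
    linarith
  -- inverses
  have hz₀Q := (hiff z₀).1 hz₀
  have hconj : z₀⁻¹ = (starRingEnd ℂ) z₀ := by
    rw [Complex.inv_def, Complex.normSq_eq_norm_sq, hz₀1]
    simp
  have h1 : aeval z₀⁻¹ (minpoly ℚ β) = 0 := by
    rw [hconj]
    have h2 : aeval ((Complex.conjAe.restrictScalars ℚ) z₀) (minpoly ℚ β) = 0 := by
      rw [aeval_algHom_apply, hz₀Q, map_zero]
    exact h2
  have hz₀ne := hne0 z₀ hz₀Q
  have hrev : ∀ z : ℂ, z ≠ 0 → (aeval z (minpoly ℚ β).reverse = 0 ↔ aeval z⁻¹ (minpoly ℚ β) = 0) := by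
    intro z hz
    let _ : Invertible z⁻¹ := invertibleOfNonzero (inv_ne_zero hz)
    have h := eval₂_reverse_eq_zero_iff (algebraMap ℚ ℂ) z⁻¹ (minpoly ℚ β)
    rw [invOf_eq_inv, inv_inv] at h
    exact h
  have hdvd : minpoly ℚ β ∣ (minpoly ℚ β).reverse := by
    have h3 := (hrev z₀ hz₀ne).2 h1
    have h4 := minpoly.dvd ℚ z₀ h3
    rwa [← hmin z₀ hz₀Q] at h4
  have hinv : ∀ z : ℂ, aeval z (minpoly ℚ β) = 0 → aeval z⁻¹ (minpoly ℚ β) = 0 := by
    intro z hz
    rw [← hrev z (hne0 z hz)]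
    obtain ⟨c, hc⟩ := hdvd
    rw [hc, map_mul, hz, zero_mul]
  -- the roots
  have hroot : ∀ z : ℂ, aeval z (minpoly ℚ β) = 0 → z ≠ (β : ℂ) → z ≠ ((β⁻¹ : ℝ) : ℂ) → ‖z‖ = 1 ∧ z.im ≠ 0 := by
    intro z hz hzβ hzβ'
    have hn1 : ‖z‖ ≤ 1 := hle z ((hiff z).2 hz) hzβ
    have hn2 : ‖z⁻¹‖ ≤ 1 := hle z⁻¹ ((hiff _).2 (hinv z hz)) (by
      intro h
      apply hzβ'
      rw [← inv_inv z, h, Complex.ofReal_inv])
    have hz0 : 0 < ‖z‖ := norm_pos_iff.2 (hne0 z hz)
    have hn : ‖z‖ = 1 := by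
      rw [norm_inv] at hn2
      have := (inv_le_one₀ hz0).1 hn2
      exact le_antisymm hn1 this
    refine ⟨hn, fun him => ?_⟩
    have hre : z = ((z.re : ℝ) : ℂ) := by
      apply Complex.ext <;> simp [him]
    rw [hre, Complex.norm_real, Real.norm_eq_abs] at hn
    rcases eq_or_eq_neg_of_abs_eq hn with h | h
    · have := hrat 1 (by rw [hre, h] at hz; simpa using hz)
      simp at this
      linarith
    · have := hrat (-1) (by rw [hre, h] at hz; simpa using hz)
      simp at this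
      linarith
  -- over the reals
  set R : ℝ[X] := (minpoly ℤ β).map (Int.castRingHom ℝ) with hR
  have hRQ : R = (minpoly ℚ β).map (algebraMap ℚ ℝ) := by
    rw [hR, hpP, Polynomial.map_map]
    congr 1
  have hRm : R.Monic := (minpoly.monic hint).map _
  have hReval : ∀ z : ℂ, aeval z R = aeval z (minpoly ℚ β) := by
    intro z
    rw [hRQ, aeval_map_algebraMap]
  have hcast : ∀ (x : ℝ) (F : ℝ[X]), aeval (x : ℂ) F = ((F.eval x : ℝ) : ℂ) := by
    intro x F
    exact Polynomial.aeval_algebraMap_apply_eq_algebraMap_eval x F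
  have hsep : R.Separable := by
    rw [hRQ]
    exact (hirr.separable).map
  have hsq : Squarefree R := hsep.squarefree
  have hβR : R.eval β = 0 := by
    have : aeval (β : ℂ) R = 0 := by
      rw [hReval]
      have := minpoly.aeval ℚ β
      have h5 := Polynomial.aeval_algebraMap_apply ℂ β (minpoly ℚ β)
      rw [this, map_zero] at h5
      exact h5
    rw [hcast] at this
    exact_mod_cast this
  have hβR' : R.eval β⁻¹ = 0 := by
    have : aeval ((β⁻¹ : ℝ) : ℂ) R = 0 := by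
      rw [hReval]
      have h6 : aeval (β : ℂ) (minpoly ℚ β) = 0 := by
        rw [← hReval, hcast, hβR, Complex.ofReal_zero]
      have h7 := hinv _ h6
      rwa [← Complex.ofReal_inv] at h7
    rw [hcast] at this
    exact_mod_cast this
  have hββ : β⁻¹ ≠ β := by
    have := inv_lt_one_of_one_lt₀ hβ1
    exact ne_of_lt (this.trans hβ1)
  obtain ⟨G, hG⟩ := dvd_iff_isRoot.2 hβR
  have hGr : G.eval β⁻¹ = 0 := by
    rw [hG, eval_mul, eval_sub, eval_X, eval_C] at hβR'
    rcases mul_eq_zero.1 hβR' with h | h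
    · exact absurd (sub_eq_zero.1 h) hββ
    · exact h
  obtain ⟨F, hF⟩ := dvd_iff_isRoot.2 hGr
  have hRF : R = (X - C β) * (X - C β⁻¹) * F := by
    rw [hG, hF, mul_assoc]
  have hlin : ((X - C β) * (X - C β⁻¹) : ℝ[X]).Monic := (monic_X_sub_C β).mul (monic_X_sub_C β⁻¹)
  have hFm : F.Monic := by
    rw [hRF] at hRm
    exact hlin.of_mul_monic_left hRm
  have hFβ : F.eval β ≠ 0 := by
    intro h
    obtain ⟨c, hc⟩ := dvd_iff_isRoot.2 h
    have h8 : (X - C β) * (X - C β) ∣ R := ⟨(X - C β⁻¹) * c, by rw [hRF, hc]; ring⟩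
    exact not_isUnit_X_sub_C β (hsq _ h8)
  have hFβ' : F.eval β⁻¹ ≠ 0 := by
    intro h
    obtain ⟨c, hc⟩ := dvd_iff_isRoot.2 h
    have h8 : (X - C β⁻¹) * (X - C β⁻¹) ∣ R := ⟨(X - C β) * c, by rw [hRF, hc]; ring⟩
    exact not_isUnit_X_sub_C β⁻¹ (hsq _ h8)
  have hFroots : ∀ z : ℂ, aeval z F = 0 → ‖z‖ = 1 ∧ z.im ≠ 0 := by
    intro z hz
    refine hroot z ?_ ?_ ?_
    · rw [← hReval, hRF, map_mul, hz, mul_zero]
    · rintro rfl
      rw [hcast] at hz
      exact hFβ (by exact_mod_cast hz)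
    · rintro rfl
      rw [hcast] at hz
      exact hFβ' (by exact_mod_cast hz)
  obtain ⟨k, hk⟩ := REC_even _ F hFm rfl (fun z hz => (hFroots z hz).2)
  have hk1 : 1 ≤ k := by
    by_contra hk0
    have hF1 : F = 1 := by
      apply hFm.natDegree_eq_zero.1
      omega
    have h9 : aeval z₀ R = 0 := by
      rw [hReval]
      exact hz₀Q
    rw [hRF, hF1, mul_one, map_mul, map_sub, map_sub, aeval_X, aeval_C, aeval_C] at h9
    rcases mul_eq_zero.1 h9 with h | h
    · have h10 : z₀ = (β : ℂ) := sub_eq_zero.1 h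
      rw [h10, Complex.norm_real, Real.norm_of_nonneg hβ0.le] at hz₀1
      linarith
    · have h10 : z₀ = ((β⁻¹ : ℝ) : ℂ) := sub_eq_zero.1 h
      rw [h10, Complex.norm_real, Real.norm_of_nonneg (by positivity)] at hz₀1
      have := inv_lt_one_of_one_lt₀ hβ1
      linarith
  refine ⟨k, hk1, ?_, ?_⟩
  · have h11 : R.natDegree = (minpoly ℤ β).natDegree := (minpoly.monic hint).natDegree_map _
    rw [← h11, hRF, hlin.natDegree_mul hFm, (monic_X_sub_C β).natDegree_mul (monic_X_sub_C β⁻¹), natDegree_X_sub_C,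
      natDegree_X_sub_C, hk]
    ring
  · obtain ⟨w, hw⟩ := hFAC k F hFm (by omega) hFroots
    refine ⟨w, ?_⟩
    unfold Fac
    rw [← hR, hRF, hw]

end Pool.Agent.PSA
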